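import Pool.Agent.Helper892.HE.Setup2

/-!
Points with small discriminants for several hyperelliptic curves over one field.
-/

set_option autoImplicit false

open NumberField Height Module Polynomial

namespace Pool.Agent.Helper892.HE

open Pool.Agent.Helper892.ER Pool.Agent.H901R3.MS

/-- the data for one curve -/
theorem exists_dat (K : Type) [Field K] [NumberField K] (f : K[X]) (m r : ℕ) (hm : 1 ≤ m)
    (hdeg : f.natDegree = 2 * m + 3) (hsep : f.Separable) :
    ∃ (L : Type) (_ : Field L) (_ : NumberField L) (_ : Algebra K L),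
      Dat L (f.map (algebraMap K L)) m r := by
  classical
  obtain ⟨L, iF, iN, iA, a, b, h⟩ := exists_dat0 K f m hm hdeg hsep
  have hD : 4 * a ^ 3 + 27 * b ^ 2 ≠ 0 := by
    obtain ⟨G, c, d, ν, M, B, h1, -⟩ := h
    exact h1
  obtain ⟨L', iF', iN', iA', iD', P, hP⟩ := exists_rank a b hD r
  let iAK : Algebra K L' := ((algebraMap L L').comp (algebraMap K L)).toAlgebra
  have hcomp : (f.map (algebraMap K L)).map (algebraMap L L') = f.map (algebraMap K L') := by
    rw [Polynomial.map_map]
    rfl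
  refine ⟨L', iF', iN', iAK, algebraMap (𝓞 L) (𝓞 L') a, algebraMap (𝓞 L) (𝓞 L') b, ?_, iD', ?_⟩
  · rw [← hcomp]
    exact h.map L'
  · rw [coe_map, coe_map]
    exact transport _ _ (bc_eq (K' := L') (a : L) (b : L)) P hP

/-- the data for several curves -/
theorem exists_dats (k : Type) [Field k] [NumberField k] (n : ℕ) (f : Fin n → k[X])
    (m : Fin n → ℕ) (r : ℕ) (hm : ∀ i, 1 ≤ m i) (hdeg : ∀ i, (f i).natDegree = 2 * m i + 3)
    (hsep : ∀ i, (f i).Separable) : ∃ (K : Type) (_ : Field K) (_ : NumberField K)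
      (_ : Algebra k K), ∀ i, Dat K ((f i).map (algebraMap k K)) (m i) r := by
  have key : ∀ j : ℕ, ∃ (K : Type) (_ : Field K) (_ : NumberField K)
      (_ : Algebra k K), ∀ i : Fin n, (i : ℕ) < j → Dat K ((f i).map (algebraMap k K)) (m i) r := by
    intro j
    induction j with
    | zero => exact ⟨k, inferInstance, inferInstance, inferInstance, fun i hi => absurd hi (by omega)⟩
    | succ j ih =>
      obtain ⟨K, iF, iN, iA, h⟩ := ih
      by_cases hj : j < n
      · obtain ⟨L, iF', iN', iA', h'⟩ := exists_dat K ((f ⟨j, hj⟩).map (algebraMap k K)) (m ⟨j, hj⟩) r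
          (hm _) (by rw [natDegree_map, hdeg]) ((hsep _).map)
        let iAK : Algebra k L := ((algebraMap K L).comp (algebraMap k K)).toAlgebra
        have hcomp : ∀ i, ((f i).map (algebraMap k K)).map (algebraMap K L) =
            (f i).map (algebraMap k L) := by
          intro i
          rw [Polynomial.map_map]
          rfl
        refine ⟨L, iF', iN', iAK, fun i hi => ?_⟩
        rcases Nat.lt_succ_iff_lt_or_eq.1 hi with h1 | h1
        · rw [← hcomp]
          exact (h i h1).map L
        · have h2 : i = ⟨j, hj⟩ := Fin.ext h1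
          rw [← hcomp, h2]
          exact h'
      · exact ⟨K, iF, iN, iA, fun i hi => h i (by omega)⟩
  obtain ⟨K, iF, iN, iA, h⟩ := key n
  exact ⟨K, iF, iN, iA, fun i => h i i.2⟩

/-- the points -/
theorem single' (K : Type) [Field K] [NumberField K] (f : K[X]) {m r : ℕ} (hm : 1 ≤ m)
    (hr : 1 ≤ r) (h : Dat K f m r) :
    ∃ C : ℝ, ∀ T : ℝ, ∃ x : K, T < logHeight₁ x ∧ ∃ (G' : 𝓞 K) (σ : K), G' ≠ 0 ∧ σ ≠ 0 ∧
      eval x f = σ ^ 2 * G' ∧
      Real.log |(Algebra.norm ℚ (G' : K) : ℝ)| / 2 + r / 4 * Real.log (logHeight₁ x) ≤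
        m * logHeight₁ x + C := by
  obtain ⟨a, b, ⟨G, c, d, ν, M, B, h1, h2, h3, h4, h5, h6, h7, h8, h9⟩, iD, P, hP⟩ := h
  have hML : (M : K) ≠ 0 := Int.cast_ne_zero.2 h7
  have hBL : (B : K) ≠ 0 := Int.cast_ne_zero.2 h8
  obtain ⟨p, hp⟩ := exists_prime_notMem (2 * (4 * a ^ 3 + 27 * b ^ 2))
    (mul_ne_zero two_ne_zero h1)
  obtain ⟨C, hC⟩ := single p a b hp G hm h2 h3 h4 h5 h6 hr P hP
  have hrr : (0 : ℝ) < r := by exact_mod_cast hr
  have hmr : (1 : ℝ) ≤ m := by exact_mod_cast hm
  -- heights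
  set c1 : ℝ := logHeight₁ (M : K) + logHeight₁ ν + Real.log 2 * totalWeight K with hc1
  have hw : (0 : ℝ) ≤ totalWeight K := Nat.cast_nonneg _
  have hl2 : 0 < Real.log 2 := Real.log_pos (by norm_num)
  have g1 : ∀ x : K, logHeight₁ (x / M + ν) ≤ logHeight₁ x + c1 := by
    intro x
    have e1 := logHeight₁_add_le (x / M) ν
    have e2 := logHeight₁_mul_le x (M : K)⁻¹
    rw [logHeight₁_inv, ← div_eq_mul_inv] at e2
    rw [hc1]
    linarith
  have g2 : ∀ x : K, logHeight₁ x ≤ logHeight₁ (x / M + ν) + c1 := by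
    intro x
    have e0 : x = (x / M + ν - ν) * M := by field_simp; ring
    have e1 := logHeight₁_sub_le (x / M + ν) ν
    have e2 := logHeight₁_mul_le (x / M + ν - ν) (M : K)
    rw [← e0] at e2
    rw [hc1]
    linarith
  have hc10 : 0 ≤ c1 := by
    rw [hc1]
    have := zero_le_logHeight₁ (M : K)
    have := zero_le_logHeight₁ ν
    positivity
  refine ⟨C + m * c1 + r / 4 * c1, fun T => ?_⟩
  obtain ⟨x, y, hxy, hy, hT, G', s, hG', hs, hG's, hle⟩ := hC (|T| + c1 + 1)
  have hT0 := abs_nonneg T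
  have hT1 := le_abs_self T
  refine ⟨x / M + ν, ?_, G', y / (B * s), hG', ?_, ?_, ?_⟩
  · have := g2 x
    linarith
  · exact div_ne_zero hy (mul_ne_zero hBL hs)
  · have e1 := congrArg (eval x) h9
    simp only [eval_mul, eval_comp, eval_add, eval_C, eval_X, eval_pow, eval_map_algebraMap] at e1
    rw [hG's]
    rw [← hxy] at e1
    have e2 : (M : K)⁻¹ * x + ν = x / M + ν := by ring
    rw [e2] at e1
    generalize eval (x / (M : K) + ν) f = v at e1 ⊢
    field_simp
    linear_combination e1
  · have e1 : Real.log (logHeight₁ (x / M + ν)) ≤ Real.log (logHeight₁ x) + c1 := by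
      have f1 : 0 < logHeight₁ (x / M + ν) := by
        have := g2 x
        linarith
      have f2 : 1 ≤ logHeight₁ x := by linarith
      have f3 : logHeight₁ (x / M + ν) ≤ logHeight₁ x * (1 + c1) := by
        have := g1 x
        nlinarith
      have f4 := Real.log_le_log f1 f3
      rw [Real.log_mul (by linarith) (by linarith)] at f4
      have f5 : Real.log (1 + c1) ≤ c1 := by
        have := Real.log_le_sub_one_of_pos (by linarith : 0 < 1 + c1)
        linarith
      linarith
    have e2 := g2 x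
    have e3 : r / 4 * Real.log (logHeight₁ (x / M + ν)) ≤
        r / 4 * (Real.log (logHeight₁ x) + c1) := mul_le_mul_of_nonneg_left e1 (by positivity)
    have e4 : m * logHeight₁ x ≤ m * (logHeight₁ (x / M + ν) + c1) :=
      mul_le_mul_of_nonneg_left e2 (by linarith)
    linarith

end Pool.Agent.Helper892.HE
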