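import Pool.Agent.Helper892.HE.Exist
import Pool.Agent.Helper892.CO.Fields

/-!
Error terms for products of hyperelliptic curves.
-/

set_option autoImplicit false

open NumberField Height Module Polynomial IntermediateField

namespace Pool.Agent.Helper892.HE

open Pool.Agent.Y733.VR Pool.Agent.Helper892.VE Pool.Agent.Helper892.CO

/-- a tower of square roots -/
theorem sqrt_tower (K : Type) [Field K] [NumberField K] [Algebra K ℂ] (n : ℕ) (G : ℕ → 𝓞 K)
    (hG : ∀ i, G i ≠ 0) (w : ℕ → ℂ) (hw : ∀ i, w i ^ 2 = algebraMap K ℂ (G i)) :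
    ∃ (E : IntermediateField K ℂ) (_ : FiniteDimensional K E), (∀ i < n, w i ∈ E) ∧
      finrank K E ≤ 2 ^ n ∧ ld E ≤ ld K + ∑ i ∈ Finset.range n,
        (Real.log 2 + Real.log |(Algebra.norm ℚ (G i : K) : ℝ)| / (2 * finrank ℚ K)) := by
  induction n with
  | zero =>
    refine ⟨⊥, inferInstance, by simp, by simp, ?_⟩
    let _ : Algebra (⊥ : IntermediateField K ℂ) K :=
      (botEquiv K ℂ : (⊥ : IntermediateField K ℂ) →+* K).toAlgebra
    simpa using ld_mono (⊥ : IntermediateField K ℂ) K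
  | succ n ih =>
    obtain ⟨E, hE, h1, h2, h3⟩ := ih
    set A : 𝓞 E := algebraMap (𝓞 K) (𝓞 E) (G n) with hA
    have hA' : (A : E) = algebraMap K E (G n) := coe_map (G n)
    have hA0 : A ≠ 0 := by
      intro h0
      have h4 : algebraMap K E (G n : K) = 0 := by
        rw [← hA', h0]
        rfl
      rw [map_eq_zero] at h4
      exact hG n (RingOfIntegers.ext h4)
    obtain ⟨E', hE', g1, g2, g3, g4⟩ := adj E (N := 2) (by norm_num) A hA0 (w n) (by
      rw [hw, hA']
      exact IsScalarTower.algebraMap_apply K E ℂ _)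
    refine ⟨E', hE', ?_, ?_, ?_⟩
    · intro i hi
      rcases Nat.lt_succ_iff_lt_or_eq.1 hi with h | h
      · exact g1 (h1 i h)
      · rw [h]
        exact g2
    · refine g3.trans ?_
      rw [pow_succ, mul_comm]
      exact Nat.mul_le_mul_right _ h2
    · rw [Finset.sum_range_succ]
      have hKpos : (0 : ℝ) < finrank ℚ K := by exact_mod_cast finrank_pos
      have hKE : (0 : ℝ) < finrank K E := by exact_mod_cast finrank_pos
      have e1 : Real.log |(Algebra.norm ℚ (A : E) : ℝ)| / finrank ℚ E =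
          Real.log |(Algebra.norm ℚ (G n : K) : ℝ)| / finrank ℚ K := by
        rw [hA', norm_tower, finrank_tower K E]
        push_cast
        rw [abs_pow, Real.log_pow]
        field_simp
      rw [e1] at g4
      push_cast at g4
      have e2 : ((2 : ℝ) - 1) / 2 * (Real.log |(Algebra.norm ℚ (G n : K) : ℝ)| / finrank ℚ K) =
          Real.log |(Algebra.norm ℚ (G n : K) : ℝ)| / (2 * finrank ℚ K) := by
        field_simp
        ring
      rw [e2] at g4
      linarith

/-- the field generated by several square roots -/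
theorem sqrt_field (K : Type) [Field K] [NumberField K] (n : ℕ) (G : Fin n → 𝓞 K)
    (hG : ∀ i, G i ≠ 0) : ∃ (L : Type) (_ : Field L) (_ : NumberField L) (_ : Algebra K L)
      (w : Fin n → L), (∀ i, w i ^ 2 = algebraMap K L (G i)) ∧ adjoin K (Set.range w) = ⊤ ∧
      finrank K L ≤ 2 ^ n ∧ lD K L ≤ n * (finrank ℚ K * Real.log 2) +
        (∑ i, Real.log |(Algebra.norm ℚ (G i : K) : ℝ)|) / 2 := by
  classical
  obtain ⟨φ⟩ : Nonempty (K →+* ℂ) := inferInstance
  let _ : Algebra K ℂ := φ.toAlgebra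
  set G' : ℕ → 𝓞 K := fun i => if h : i < n then G ⟨i, h⟩ else 1 with hG'
  have hG'0 : ∀ i, G' i ≠ 0 := by
    intro i
    by_cases h : i < n
    · rw [hG']
      simp only [h, dif_pos]
      exact hG _
    · rw [hG']
      simp only [h, dif_neg, not_false_iff]
      exact one_ne_zero
  have hG'v : ∀ i : Fin n, G' i = G i := by
    intro i
    rw [hG']
    simp
  choose w0 hw0 using fun i => IsAlgClosed.exists_pow_nat_eq (algebraMap K ℂ (G' i))
    (n := 2) (by norm_num)
  obtain ⟨E, hE, h1, h2, h3⟩ := sqrt_tower K n G' hG'0 w0 hw0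
  set L : IntermediateField K ℂ := adjoin K (Set.range (fun i : Fin n => w0 i)) with hL
  have hLE : L ≤ E := by
    rw [hL, adjoin_le_iff]
    rintro _ ⟨i, rfl⟩
    exact h1 i i.2
  have hfL : FiniteDimensional K L := by
    let _ : Algebra L E := (inclusion hLE).toRingHom.toAlgebra
    have : IsScalarTower K L E := IsScalarTower.of_algebraMap_eq fun _ => rfl
    exact FiniteDimensional.left K L E
  have hwL : ∀ i : Fin n, w0 i ∈ L := fun i => subset_adjoin K _ ⟨i, rfl⟩
  refine ⟨L, inferInstance, inferInstance, inferInstance, fun i => ⟨w0 i, hwL i⟩, ?_, ?_, ?_, ?_⟩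
  · intro i
    apply Subtype.ext
    change w0 i ^ 2 = algebraMap K ℂ (G i)
    rw [hw0, hG'v]
  · have g1 : IntermediateField.map L.val (adjoin K (Set.range
        (fun i : Fin n => (⟨w0 i, hwL i⟩ : L)))) = L := by
      rw [adjoin_map, ← Set.range_comp]
      rfl
    have g2 : IntermediateField.map L.val (⊤ : IntermediateField K L) = L := by
      rw [← AlgHom.fieldRange_eq_map, fieldRange_val]
    exact IntermediateField.map_injective L.val (g1.trans g2.symm)
  · refine le_trans ?_ h2
    exact LinearMap.finrank_le_finrank_of_injective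
      (f := (inclusion hLE).toLinearMap) (inclusion_injective hLE)
  · rw [lD_eq]
    have g3 := ld_le_of_le hLE
    have hKpos : (0 : ℝ) < finrank ℚ K := by exact_mod_cast finrank_pos
    have g4 : ∑ i ∈ Finset.range n,
        (Real.log 2 + Real.log |(Algebra.norm ℚ (G' i : K) : ℝ)| / (2 * finrank ℚ K)) =
        n * Real.log 2 + (∑ i : Fin n, Real.log |(Algebra.norm ℚ (G i : K) : ℝ)|) /
          (2 * finrank ℚ K) := by
      rw [Finset.sum_range, Finset.sum_add_distrib, Finset.sum_const, Finset.card_univ,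
        Fintype.card_fin, nsmul_eq_mul, Finset.sum_div]
      congr 1
      refine Finset.sum_congr rfl fun i _ => ?_
      rw [hG'v]
    rw [g4] at h3
    have g5 : ld L - ld K ≤ n * Real.log 2 +
        (∑ i : Fin n, Real.log |(Algebra.norm ℚ (G i : K) : ℝ)|) / (2 * finrank ℚ K) := by linarith
    have g6 := mul_le_mul_of_nonneg_left g5 hKpos.le
    have g7 : (finrank ℚ K : ℝ) * (n * Real.log 2 +
        (∑ i : Fin n, Real.log |(Algebra.norm ℚ (G i : K) : ℝ)|) / (2 * finrank ℚ K)) =
        n * (finrank ℚ K * Real.log 2) +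
          (∑ i : Fin n, Real.log |(Algebra.norm ℚ (G i : K) : ℝ)|) / 2 := by
      field_simp
    rw [g7] at g6
    exact g6

/-- the points -/
theorem main (k : Type) [Field k] [NumberField k] (n : ℕ) (hn : 1 ≤ n) (f : Fin n → k[X])
    (m : Fin n → ℕ) (hm : ∀ i, 1 ≤ m i) (hdeg : ∀ i, (f i).natDegree = 2 * m i + 3)
    (hsep : ∀ i, (f i).Separable) (q : ℝ) : ∃ (K : Type) (_ : Field K) (_ : NumberField K)
      (_ : Algebra k K), ∀ (H : MvPolynomial (Fin n) K), H ≠ 0 → ∀ T : ℝ,
      ∃ (L : Type) (_ : Field L) (_ : NumberField L) (_ : Algebra K L) (x : Fin n → K)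
        (y : Fin n → L), (∀ i, y i ^ 2 = algebraMap K L (eval (x i) ((f i).map (algebraMap k K)))) ∧
        adjoin K (Set.range y) = ⊤ ∧ finrank K L ≤ 2 ^ n ∧ MvPolynomial.eval x H ≠ 0 ∧
        (∀ i, T < logHeight₁ (x i)) ∧
        lD K L + q * Real.log (∑ i, m i * logHeight₁ (x i)) ≤ ∑ i, m i * logHeight₁ (x i) := by
  classical
  obtain ⟨r, hr⟩ := exists_nat_ge (4 * |q| + 4)
  have hq0 := abs_nonneg q
  have hr1 : 1 ≤ r := by
    have : (1 : ℝ) ≤ r := by linarith
    exact_mod_cast this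
  obtain ⟨K, iF, iN, iA, hK⟩ := exists_dats k n f m r hm hdeg hsep
  refine ⟨K, iF, iN, iA, fun H hH T => ?_⟩
  choose C hC using fun i => single' K ((f i).map (algebraMap k K)) (hm i) hr1 (hK i)
  set MM : ℝ := ∑ i, (m i : ℝ) with hMM
  have hMM1 : 1 ≤ MM := by
    have h0 : (m ⟨0, hn⟩ : ℝ) ≤ MM :=
      Finset.single_le_sum (f := fun i => (m i : ℝ)) (fun i _ => Nat.cast_nonneg _)
        (Finset.mem_univ _)
    have : (1 : ℝ) ≤ m ⟨0, hn⟩ := by exact_mod_cast hm _
    linarith
  set B : ℝ := |q| * Real.log MM + |n * (finrank ℚ K * Real.log 2) + ∑ i, C i| with hB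
  set T' : ℝ := max |T| (Real.exp B) with hT'
  -- infinite sets
  set S : Fin n → Set K := fun i => {x | T' < logHeight₁ x ∧ ∃ (G' : 𝓞 K) (σ : K), G' ≠ 0 ∧ σ ≠ 0 ∧
      eval x ((f i).map (algebraMap k K)) = σ ^ 2 * G' ∧
      Real.log |(Algebra.norm ℚ (G' : K) : ℝ)| / 2 + r / 4 * Real.log (logHeight₁ x) ≤
        m i * logHeight₁ x + C i} with hS
  have hSinf : ∀ i, (S i).Infinite := by
    intro i hfin
    obtain ⟨M, hM⟩ := (hfin.image fun x => logHeight₁ x).bddAbove
    obtain ⟨x, hx, h1⟩ := hC i (max T' M)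
    have hxS : x ∈ S i := ⟨(le_max_left _ _).trans_lt hx, h1⟩
    have := hM (Set.mem_image_of_mem _ hxS)
    have h2 := (le_max_right T' M).trans_lt hx
    linarith
  obtain ⟨x, hxS, hxH⟩ : ∃ x ∈ Set.univ.pi S, MvPolynomial.eval x H ≠ 0 := by
    by_contra hcon
    push Not at hcon
    apply hH
    refine MvPolynomial.funext_set S hSinf fun x hx => ?_
    rw [hcon x hx, map_zero]
  have hx : ∀ i, x i ∈ S i := fun i => hxS i (Set.mem_univ i)
  choose hx1 G σ hG hσ hGσ hle using hx
  obtain ⟨L, jF, jN, jA, w, hw, htop, hdegL, hld⟩ := sqrt_field K n G hG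
  have hxT : ∀ i, |T| < logHeight₁ (x i) := fun i => (le_max_left _ _).trans_lt (hx1 i)
  have hxB : ∀ i, Real.exp B < logHeight₁ (x i) := fun i => (le_max_right _ _).trans_lt (hx1 i)
  have hB0 : 0 ≤ B := by
    have : 0 ≤ Real.log MM := Real.log_nonneg hMM1
    positivity
  have hx1' : ∀ i, 1 < logHeight₁ (x i) := by
    intro i
    have := Real.one_le_exp hB0
    linarith [hxB i]
  have hlogB : ∀ i, B < Real.log (logHeight₁ (x i)) := fun i =>
    (Real.lt_log_iff_exp_lt (by linarith [hx1' i])).2 (hxB i)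
  refine ⟨L, jF, jN, jA, x, fun i => algebraMap K L (σ i) * w i, ?_, ?_, hdegL, hxH, ?_, ?_⟩
  · intro i
    rw [mul_pow, hw, hGσ, map_mul, map_pow]
  · rw [eq_top_iff, ← htop, adjoin_le_iff]
    rintro _ ⟨i, rfl⟩
    have h1 : algebraMap K L (σ i) * w i ∈ adjoin K (Set.range fun i => algebraMap K L (σ i) * w i) :=
      subset_adjoin K _ ⟨i, rfl⟩
    have h2 : w i = algebraMap K L (σ i)⁻¹ * (algebraMap K L (σ i) * w i) := by
      rw [← mul_assoc, ← map_mul, inv_mul_cancel₀ (hσ i), map_one, one_mul]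
    rw [h2]
    exact mul_mem (IntermediateField.algebraMap_mem _ _) h1
  · intro i
    exact (le_abs_self T).trans_lt (hxT i)
  · -- the estimate
    set SS : ℝ := ∑ i, m i * logHeight₁ (x i) with hSS
    set LL : ℝ := ∑ i, Real.log (logHeight₁ (x i)) with hLL
    have hlog0 : ∀ i, 0 ≤ Real.log (logHeight₁ (x i)) := fun i => hB0.trans (hlogB i).le
    have e1 : B ≤ LL := by
      have h0 : Real.log (logHeight₁ (x ⟨0, hn⟩)) ≤ LL :=
        Finset.single_le_sum (f := fun i => Real.log (logHeight₁ (x i))) (fun i _ => hlog0 i)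
          (Finset.mem_univ _)
      linarith [hlogB ⟨0, hn⟩]
    have e2 : ∀ i, logHeight₁ (x i) ≤ Real.exp LL := by
      intro i
      have h0 : Real.log (logHeight₁ (x i)) ≤ LL :=
        Finset.single_le_sum (f := fun i => Real.log (logHeight₁ (x i))) (fun i _ => hlog0 i)
          (Finset.mem_univ _)
      rw [← Real.exp_log (by linarith [hx1' i] : 0 < logHeight₁ (x i))]
      exact Real.exp_le_exp.2 h0
    have e3 : SS ≤ MM * Real.exp LL := by
      rw [hSS, hMM, Finset.sum_mul]
      exact Finset.sum_le_sum fun i _ => mul_le_mul_of_nonneg_left (e2 i) (Nat.cast_nonneg _)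
    have e4 : 1 ≤ SS := by
      have h0 : m ⟨0, hn⟩ * logHeight₁ (x ⟨0, hn⟩) ≤ SS :=
        Finset.single_le_sum (f := fun i => (m i : ℝ) * logHeight₁ (x i))
          (fun i _ => mul_nonneg (Nat.cast_nonneg _) (by linarith [hx1' i])) (Finset.mem_univ _)
      have h1 : (1 : ℝ) ≤ m ⟨0, hn⟩ := by exact_mod_cast hm _
      have h2 := hx1' ⟨0, hn⟩
      nlinarith
    have e5 : Real.log SS ≤ Real.log MM + LL := by
      have := Real.log_le_log (by linarith) e3
      rwa [Real.log_mul (by linarith) (Real.exp_pos _).ne', Real.log_exp] at this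
    have e6 : q * Real.log SS ≤ |q| * (Real.log MM + LL) := by
      have h0 : 0 ≤ Real.log SS := Real.log_nonneg e4
      exact (mul_le_mul_of_nonneg_right (le_abs_self q) h0).trans
        (mul_le_mul_of_nonneg_left e5 hq0)
    have e7 : (∑ i, Real.log |(Algebra.norm ℚ (G i : K) : ℝ)|) / 2 + r / 4 * LL ≤
        SS + ∑ i, C i := by
      have h0 := Finset.sum_le_sum fun i (_ : i ∈ (Finset.univ : Finset (Fin n))) => hle i
      rw [Finset.sum_add_distrib, Finset.sum_add_distrib, ← Finset.sum_div, ← Finset.mul_sum] at h0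
      exact h0
    have e8 : n * (finrank ℚ K * Real.log 2) + ∑ i, C i ≤
        |n * (finrank ℚ K * Real.log 2) + ∑ i, C i| := le_abs_self _
    have e9 : (|q| + 1) * LL ≤ r / 4 * LL := mul_le_mul_of_nonneg_right (by linarith) (hB0.trans e1)
    rw [hB] at e1
    nlinarith

end Pool.Agent.Helper892.HE
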