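import Pool.Agent.Helper892.HE.Single
import Pool.Agent.Helper892.ER.Rank
import Pool.Agent.Helper892.QR.FieldN

/-!
Elliptic curves which share four branch points with a hyperelliptic curve.
-/

set_option autoImplicit false

open NumberField WeierstrassCurve Height Module Polynomial

namespace Pool.Agent.Helper892.HE

open Pool.Agent.Helper892.ER Pool.Agent.H901R3.MS

/-- an elliptic curve which shares four branch points with `y² = f(x)` -/
def Dat0 (K : Type) [Field K] [NumberField K] (f : K[X]) (m : ℕ) (a b : 𝓞 K) : Prop :=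
  ∃ (G : (𝓞 K)[X]) (c d ν : K) (M B : ℤ), 4 * a ^ 3 + 27 * b ^ 2 ≠ 0 ∧ G ≠ 0 ∧
    G.natDegree ≤ 2 * m ∧ d ^ 2 = c ^ 3 + a * c + b ∧ d ≠ 0 ∧ aeval c G = 0 ∧ M ≠ 0 ∧ B ≠ 0 ∧
    f.comp (C (M : K)⁻¹ * X + C ν) * C ((B : K) ^ 2) =
      (X ^ 3 + C (a : K) * X + C (b : K)) * G.map (algebraMap (𝓞 K) K)

lemma coe_map {K K' : Type} [Field K] [NumberField K] [Field K'] [NumberField K'] [Algebra K K']
    (a : 𝓞 K) : ((algebraMap (𝓞 K) (𝓞 K') a : 𝓞 K') : K') = algebraMap K K' (a : K) :=
  (IsScalarTower.algebraMap_apply (𝓞 K) (𝓞 K') K' a).symm.trans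
    (IsScalarTower.algebraMap_apply (𝓞 K) K K' a)

lemma Dat0.map {K : Type} [Field K] [NumberField K] {f : K[X]} {m : ℕ} {a b : 𝓞 K}
    (h : Dat0 K f m a b) (K' : Type) [Field K'] [NumberField K'] [Algebra K K'] :
    Dat0 K' (f.map (algebraMap K K')) m (algebraMap (𝓞 K) (𝓞 K') a)
      (algebraMap (𝓞 K) (𝓞 K') b) := by
  obtain ⟨G, c, d, ν, M, B, h1, h2, h3, h4, h5, h6, h7, h8, h9⟩ := h
  have hinj : Function.Injective (algebraMap (𝓞 K) (𝓞 K')) :=
    FaithfulSMul.algebraMap_injective (𝓞 K) (𝓞 K')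
  refine ⟨G.map (algebraMap (𝓞 K) (𝓞 K')), algebraMap K K' c, algebraMap K K' d,
    algebraMap K K' ν, M, B, ?_, ?_, ?_, ?_, ?_, ?_, h7, h8, ?_⟩
  · have e : 4 * (algebraMap (𝓞 K) (𝓞 K') a) ^ 3 + 27 * (algebraMap (𝓞 K) (𝓞 K') b) ^ 2 =
        algebraMap (𝓞 K) (𝓞 K') (4 * a ^ 3 + 27 * b ^ 2) := by
      simp only [map_add, map_mul, map_pow, map_ofNat]
    rw [e]
    exact fun h0 => h1 (hinj (by rw [h0, map_zero]))
  · exact (Polynomial.map_ne_zero_iff hinj).2 h2
  · exact (natDegree_map_le).trans h3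
  · rw [coe_map, coe_map, ← map_pow, h4]
    simp only [map_add, map_mul, map_pow]
  · exact (_root_.map_ne_zero _).2 h5
  · rw [aeval_map_algebraMap, aeval_algebraMap_apply, h6, map_zero]
  · have e1 : (G.map (algebraMap (𝓞 K) (𝓞 K'))).map (algebraMap (𝓞 K') K') =
        (G.map (algebraMap (𝓞 K) K)).map (algebraMap K K') := by
      rw [Polynomial.map_map, Polynomial.map_map]
      congr 1
    have h10 := congrArg (Polynomial.map (algebraMap K K')) h9
    rw [coe_map, coe_map, e1]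
    simp only [Polynomial.map_mul, Polynomial.map_comp, Polynomial.map_add, Polynomial.map_C,
      Polynomial.map_X, Polynomial.map_pow, map_inv₀, map_intCast, map_pow,
      Polynomial.map_intCast] at h10 ⊢
    exact h10

/-- the curve, with independent points -/
def Dat (K : Type) [Field K] [NumberField K] (f : K[X]) (m r : ℕ) : Prop :=
  ∃ a b : 𝓞 K, Dat0 K f m a b ∧ ∃ (_ : DecidableEq K) (P : Fin r → Pt (a : K) (b : K)),
    LinearIndependent ℤ P

lemma transport {K : Type} [Field K] [DecidableEq K] {r : ℕ} (W W' : WeierstrassCurve K)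
    (hW : W = W') (P : Fin r → W.toAffine.Point) (hP : LinearIndependent ℤ P) :
    ∃ Q : Fin r → W'.toAffine.Point, LinearIndependent ℤ Q := by
  subst hW
  exact ⟨P, hP⟩

lemma bc_eq {K K' : Type} [Field K] [Field K'] [Algebra K K'] (a b : K) :
    (CV a b).baseChange K' = CV (algebraMap K K' a) (algebraMap K K' b) := by
  simp only [CV, WeierstrassCurve.baseChange, WeierstrassCurve.map, map_zero]

lemma Dat.map {K : Type} [Field K] [NumberField K] {f : K[X]} {m r : ℕ}
    (h : Dat K f m r) (K' : Type) [Field K'] [NumberField K'] [Algebra K K'] :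
    Dat K' (f.map (algebraMap K K')) m r := by
  classical
  obtain ⟨a, b, h1, iD, P, hP⟩ := h
  refine ⟨_, _, h1.map K', inferInstance, ?_⟩
  rw [coe_map, coe_map]
  have e : CV (a : K) (b : K) = (CV (a : K) (b : K)).baseChange K := by
    rw [bc_eq]
    rfl
  obtain ⟨Q, hQ⟩ := transport _ _ e P hP
  have hQ' := hQ.map' (Affine.Point.map (W' := CV (a : K) (b : K))
    (Algebra.ofId K K')).toIntLinearMap (LinearMap.ker_eq_bot.2 (Affine.Point.map_injective _))
  exact transport _ _ (bc_eq (K' := K') (a : K) (b : K)) _ hQ'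

end Pool.Agent.Helper892.HE
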