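import Pool.Agent.Helper892.HE.Setup

/-!
Elliptic curves which share four branch points with a given hyperelliptic curve: existence.
-/

set_option autoImplicit false

open NumberField Height Module Polynomial

namespace Pool.Agent.Helper892.HE

open Pool.Agent.Helper892.ER Pool.Agent.H901R3.MS

/-- the roots -/
lemma exists_roots (K : Type) [Field K] [NumberField K] (f : K[X]) (hsep : f.Separable) :
    ∃ (L : Type) (_ : Field L) (_ : NumberField L) (_ : Algebra K L) (s : Finset L),
      s.card = f.natDegree ∧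
      f.map (algebraMap K L) = C (algebraMap K L f.leadingCoeff) * ∏ x ∈ s, (X - C x) := by
  classical
  set L := f.SplittingField with hL
  have : NumberField L := NumberField.of_module_finite K L
  have hs : (f.map (algebraMap K L)).Splits := SplittingField.splits f
  have hnd : (f.map (algebraMap K L)).roots.Nodup := nodup_roots hsep.map
  have h1 := hs.eq_prod_roots
  have h2 := hs.natDegree_eq_card_roots
  refine ⟨L, inferInstance, inferInstance, inferInstance, (f.map (algebraMap K L)).roots.toFinset,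
    ?_, ?_⟩
  · rw [Multiset.toFinset_card_of_nodup hnd, ← h2, natDegree_map]
  · rw [Finset.prod, Multiset.toFinset_val, hnd.dedup, ← leadingCoeff_map]
    exact h1

/-- the elliptic curve and the additional branch point -/
theorem exists_dat0 (K : Type) [Field K] [NumberField K] (f : K[X]) (m : ℕ) (hm : 1 ≤ m)
    (hdeg : f.natDegree = 2 * m + 3) (hsep : f.Separable) :
    ∃ (L : Type) (_ : Field L) (_ : NumberField L) (_ : Algebra K L) (a b : 𝓞 L),
      Dat0 L (f.map (algebraMap K L)) m a b := by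
  classical
  obtain ⟨L, iF, iN, iA, s, hcard, hf⟩ := exists_roots K f hsep
  set l : L := algebraMap K L f.leadingCoeff with hl
  have hf0 : f ≠ 0 := by
    rintro rfl
    simp at hdeg
  have hl0 : l ≠ 0 := by
    rw [hl, Ne, map_eq_zero, leadingCoeff_eq_zero]
    exact hf0
  -- four roots
  obtain ⟨e0, he0⟩ := Finset.card_pos.1 (by omega : 0 < s.card)
  set s1 := s.erase e0 with hs1
  have hc1 : s1.card = 2 * m + 2 := by
    rw [hs1, Finset.card_erase_of_mem he0]
    omega
  obtain ⟨e1, he1⟩ := Finset.card_pos.1 (by omega : 0 < s1.card)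
  set s2 := s1.erase e1 with hs2
  have hc2 : s2.card = 2 * m + 1 := by
    rw [hs2, Finset.card_erase_of_mem he1]
    omega
  obtain ⟨e2, he2⟩ := Finset.card_pos.1 (by omega : 0 < s2.card)
  set s3 := s2.erase e2 with hs3
  have hc3 : s3.card = 2 * m := by
    rw [hs3, Finset.card_erase_of_mem he2]
    omega
  obtain ⟨e3, he3⟩ := Finset.card_pos.1 (by omega : 0 < s3.card)
  have h01 : e1 ≠ e0 := (Finset.mem_erase.1 he1).1
  have he2' := Finset.mem_erase.1 he2
  have h12 : e2 ≠ e1 := he2'.1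
  have h02 : e2 ≠ e0 := (Finset.mem_erase.1 he2'.2).1
  have he3' := Finset.mem_erase.1 he3
  have h23 : e3 ≠ e2 := he3'.1
  have he3'' := Finset.mem_erase.1 he3'.2
  have h13 : e3 ≠ e1 := he3''.1
  have h03 : e3 ≠ e0 := (Finset.mem_erase.1 he3''.2).1
  set ν : L := (e0 + e1 + e2) / 3 with hν
  obtain ⟨M, hM0, hM⟩ := exists_integral_multiples ℤ ℚ (s.image fun x => x - ν)
  have hML : (M : L) ≠ 0 := Int.cast_ne_zero.2 hM0
  have hε : ∀ x ∈ s, IsIntegral ℤ ((M : L) * (x - ν)) := by
    intro x hx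
    have := hM (x - ν) (Finset.mem_image_of_mem _ hx)
    rwa [zsmul_eq_mul] at this
  have hss1 : ∀ x ∈ s1, x ∈ s := fun x hx => (Finset.mem_erase.1 hx).2
  have hss2 : ∀ x ∈ s2, x ∈ s := fun x hx => hss1 x (Finset.mem_erase.1 hx).2
  have hss3 : ∀ x ∈ s3, x ∈ s := fun x hx => hss2 x (Finset.mem_erase.1 hx).2
  set z0 : 𝓞 L := ⟨_, hε e0 he0⟩ with hz0
  set z1 : 𝓞 L := ⟨_, hε e1 (hss1 _ he1)⟩ with hz1
  set z2 : 𝓞 L := ⟨_, hε e2 (hss2 _ he2)⟩ with hz2
  set z3 : 𝓞 L := ⟨_, hε e3 (hss3 _ he3)⟩ with hz3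
  have hz0' : (z0 : L) = M * (e0 - ν) := rfl
  have hz1' : (z1 : L) = M * (e1 - ν) := rfl
  have hz2' : (z2 : L) = M * (e2 - ν) := rfl
  have hz3' : (z3 : L) = M * (e3 - ν) := rfl
  have hsum : (z2 : L) = -z0 - z1 := by
    rw [hz0', hz1', hz2', hν]
    ring
  -- the leading coefficient
  obtain ⟨B, hB0, hB⟩ := exists_integral_multiples ℤ ℚ ({l * ((M : L)⁻¹) ^ (2 * m + 3)} : Finset L)
  have hBL : (B : L) ≠ 0 := Int.cast_ne_zero.2 hB0
  have hB' : IsIntegral ℤ ((B : L) ^ 2 * (l * ((M : L)⁻¹) ^ (2 * m + 3))) := by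
    have h1 := hB _ (Finset.mem_singleton_self _)
    rw [zsmul_eq_mul] at h1
    have h2 : IsIntegral ℤ (B : L) := by
      have := isIntegral_algebraMap (R := ℤ) (A := L) (x := B)
      simpa using this
    have := h2.mul h1
    rwa [← mul_assoc, ← sq] at this
  set A : 𝓞 L := ⟨_, hB'⟩ with hA
  have hA' : (A : L) = (B : L) ^ 2 * (l * ((M : L)⁻¹) ^ (2 * m + 3)) := rfl
  have hA0 : A ≠ 0 := by
    intro h0
    have : (A : L) = 0 := by rw [h0]; rfl
    rw [hA'] at this
    exact mul_ne_zero (pow_ne_zero _ hBL) (mul_ne_zero hl0 (pow_ne_zero _ (inv_ne_zero hML))) this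
  have hzz' : ∀ x : L, ∃ z : 𝓞 L, x ∈ s3 → (z : L) = M * (x - ν) := by
    intro x
    by_cases hx : x ∈ s3
    · exact ⟨⟨_, hε x (hss3 x hx)⟩, fun _ => rfl⟩
    · exact ⟨0, fun h => absurd h hx⟩
  choose zz hzz using hzz'
  set G : (𝓞 L)[X] := C A * ∏ x ∈ s3, (X - C (zz x)) with hG
  have hGmap : G.map (algebraMap (𝓞 L) L) = C (A : L) * ∏ x ∈ s3, (X - C ((M : L) * (x - ν))) := by
    rw [hG, Polynomial.map_mul, Polynomial.map_C, Polynomial.map_prod]
    congr 1
    refine Finset.prod_congr rfl fun x hx => ?_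
    rw [Polynomial.map_sub, Polynomial.map_X, Polynomial.map_C, ← hzz x hx]
  set a : 𝓞 L := z0 * z1 + z0 * z2 + z1 * z2 with ha
  set b : 𝓞 L := -(z0 * z1 * z2) with hb
  have ha' : (a : L) = z0 * z1 + z0 * z2 + z1 * z2 := by
    rw [ha]
    simp only [map_add, map_mul]
  have hb' : (b : L) = -(z0 * z1 * z2) := by
    rw [hb]
    simp only [map_neg, map_mul]
  have hcub : ∀ x : L, x ^ 3 + a * x + b = (x - z0) * (x - z1) * (x - z2) := by
    intro x
    rw [ha', hb', hsum]
    ring
  have hne : ∀ x y : L, x ≠ y → (M : L) * (x - ν) ≠ M * (y - ν) := by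
    intro x y hxy h
    apply hxy
    have := mul_left_cancel₀ hML h
    linear_combination this
  -- the fourth root
  have hc0 : (z3 : L) ^ 3 + a * z3 + b ≠ 0 := by
    rw [hcub]
    refine mul_ne_zero (mul_ne_zero ?_ ?_) ?_ <;> rw [sub_ne_zero]
    · exact hne _ _ h03
    · exact hne _ _ h13
    · exact hne _ _ h23
  have hD : 4 * a ^ 3 + 27 * b ^ 2 ≠ 0 := by
    intro h0
    have h1 : 4 * (a : L) ^ 3 + 27 * (b : L) ^ 2 = 0 := by
      have := congrArg (algebraMap (𝓞 L) L) h0
      simpa only [map_add, map_mul, map_pow, map_ofNat, map_zero] using this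
    have h2 : 4 * (a : L) ^ 3 + 27 * (b : L) ^ 2 =
        -(((z0 : L) - z1) * ((z0 : L) - z2) * ((z1 : L) - z2)) ^ 2 := by
      rw [ha', hb', hsum]
      ring
    rw [h2, neg_eq_zero] at h1
    have h3 := pow_eq_zero_iff two_ne_zero |>.1 h1
    refine mul_ne_zero (mul_ne_zero ?_ ?_) ?_ h3 <;> rw [sub_ne_zero]
    · exact hne _ _ h01.symm
    · exact hne _ _ h02.symm
    · exact hne _ _ h12.symm
  -- the identity
  have hid : (f.map (algebraMap K L)).comp (C (M : L)⁻¹ * X + C ν) * C ((B : L) ^ 2) =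
      (X ^ 3 + C (a : L) * X + C (b : L)) * G.map (algebraMap (𝓞 L) L) := by
    have hlin : ∀ x : L, (X - C x : L[X]).comp (C (M : L)⁻¹ * X + C ν) =
        C (M : L)⁻¹ * (X - C ((M : L) * (x - ν))) := by
      intro x
      rw [sub_comp, X_comp, C_comp, mul_sub, ← C_mul, inv_mul_cancel_left₀ hML, C_sub]
      ring
    have hprod : ∏ x ∈ s, (X - C ((M : L) * (x - ν))) =
        (X - C (z0 : L)) * (X - C (z1 : L)) * (X - C (z2 : L)) *
          ∏ x ∈ s3, (X - C ((M : L) * (x - ν))) := by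
      rw [← Finset.mul_prod_erase s _ he0, ← hs1, ← Finset.mul_prod_erase s1 _ he1, ← hs2,
        ← Finset.mul_prod_erase s2 _ he2, ← hs3, hz0', hz1', hz2']
      ring
    have hcubX : (X ^ 3 + C (a : L) * X + C (b : L) : L[X]) =
        (X - C (z0 : L)) * (X - C (z1 : L)) * (X - C (z2 : L)) := by
      rw [ha', hb', hsum]
      simp only [map_add, map_mul, map_sub, map_neg]
      ring
    rw [hf, mul_comp, C_comp, prod_comp, Finset.prod_congr rfl fun x _ => hlin x,
      Finset.prod_mul_distrib, Finset.prod_const, hcard, hdeg, hprod, hGmap, hcubX, hA']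
    simp only [map_mul, map_pow]
    ring
  -- a square root
  set D : 𝓞 L := z3 ^ 3 + a * z3 + b with hDdef
  have hD' : (D : L) = (z3 : L) ^ 3 + a * z3 + b := by
    rw [hDdef]
    simp only [map_add, map_mul, map_pow]
  have hD0 : D ≠ 0 := by
    intro h0
    apply hc0
    rw [← hD', h0]
    rfl
  obtain ⟨L', iF', iN', iA', d, hd, -⟩ := Pool.Agent.Helper892.QR.exists_root_field L
    (N := 2) (by norm_num) D hD0
  let iAK : Algebra K L' := ((algebraMap L L').comp (algebraMap K L)).toAlgebra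
  have hcomp : (f.map (algebraMap K L)).map (algebraMap L L') = f.map (algebraMap K L') := by
    rw [Polynomial.map_map]
    rfl
  have hinj : Function.Injective (algebraMap (𝓞 L) (𝓞 L')) :=
    FaithfulSMul.algebraMap_injective (𝓞 L) (𝓞 L')
  refine ⟨L', iF', iN', iAK, algebraMap (𝓞 L) (𝓞 L') a, algebraMap (𝓞 L) (𝓞 L') b, ?_⟩
  rw [← hcomp]
  refine ⟨G.map (algebraMap (𝓞 L) (𝓞 L')), algebraMap L L' z3, d, algebraMap L L' ν, M, B,
    ?_, ?_, ?_, ?_, ?_, ?_, hM0, hB0, ?_⟩
  · have e : 4 * (algebraMap (𝓞 L) (𝓞 L') a) ^ 3 + 27 * (algebraMap (𝓞 L) (𝓞 L') b) ^ 2 =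
        algebraMap (𝓞 L) (𝓞 L') (4 * a ^ 3 + 27 * b ^ 2) := by
      simp only [map_add, map_mul, map_pow, map_ofNat]
    rw [e]
    exact fun h0 => hD (hinj (by rw [h0, map_zero]))
  · refine (Polynomial.map_ne_zero_iff hinj).2 (mul_ne_zero (C_ne_zero.2 hA0) ?_)
    exact Finset.prod_ne_zero_iff.2 fun x _ => X_sub_C_ne_zero _
  · refine natDegree_map_le.trans ?_
    rw [hG]
    refine (natDegree_C_mul_le _ _).trans ?_
    refine (natDegree_prod_le _ _).trans ?_
    refine (Finset.sum_le_card_nsmul _ _ 1 fun x _ => ?_).trans ?_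
    · exact natDegree_X_sub_C_le _
    · rw [hc3]
      simp
  · rw [coe_map, coe_map, hd, hD']
    simp only [map_add, map_mul, map_pow]
  · intro h0
    rw [h0] at hd
    have h1 : algebraMap L L' (D : L) = 0 := by
      rw [← hd]
      ring
    rw [map_eq_zero] at h1
    exact hD0 (RingOfIntegers.ext h1)
  · rw [aeval_map_algebraMap, aeval_algebraMap_apply, ← eval_map_algebraMap, hGmap, eval_mul,
      eval_prod, Finset.prod_eq_zero he3, mul_zero, map_zero]
    rw [eval_sub, eval_X, eval_C, hz3', sub_self]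
  · have e1 : (G.map (algebraMap (𝓞 L) (𝓞 L'))).map (algebraMap (𝓞 L') L') =
        (G.map (algebraMap (𝓞 L) L)).map (algebraMap L L') := by
      rw [Polynomial.map_map, Polynomial.map_map]
      congr 1
    have h10 := congrArg (Polynomial.map (algebraMap L L')) hid
    rw [coe_map, coe_map, e1]
    simp only [Polynomial.map_mul, Polynomial.map_comp, Polynomial.map_add, Polynomial.map_C,
      Polynomial.map_X, Polynomial.map_pow, map_inv₀, map_intCast, map_pow,
      Polynomial.map_intCast] at h10 ⊢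
    exact h10

end Pool.Agent.Helper892.HE
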