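import Pool.Agent.Helper892.ER.Pig
import Pool.Agent.Helper892.ER.Core

/-!
Rational points of `y² = x³ + a x + b` close to a given rational point, of small height.
-/

set_option autoImplicit false
set_option linter.style.haveILetI false

open IsDedekindDomain NumberField WeierstrassCurve Height Module Polynomial

namespace Pool.Agent.Helper892.HE

open Pool.Agent.Helper892.ER Pool.Agent.H901R3.MS

variable {k : Type} [Field k] [NumberField k]

/-- the height of the sum with a fixed point -/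
theorem ht_shift [DecidableEq k] {a b : k} (hD : 4 * a ^ 3 + 27 * b ^ 2 ≠ 0) {c d : k}
    (hcd : d ^ 2 = c ^ 3 + a * c + b) : ∃ C : ℝ, 0 ≤ C ∧ ∀ x y : k, y ^ 2 = x ^ 3 + a * x + b →
      x ≠ c → ∃ Y : k, Y ^ 2 = (((y - d) / (x - c)) ^ 2 - x - c) ^ 3 +
        a * (((y - d) / (x - c)) ^ 2 - x - c) + b ∧
        logHeight₁ (((y - d) / (x - c)) ^ 2 - x - c) ≤ 2 * logHeight₁ x + C := by
  classical
  have hD' : Disc a b := mul_ne_zero two_ne_zero hD
  obtain ⟨C0, hC0, hpar⟩ := Pool.Agent.TH942.spar_law (K := k) (a := a) (b := b) hD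
  let ht : Pt a b → ℝ := fun P => Pool.Agent.TH942.sht (K := k) (a := a) (b := b) P
  have hpar' : ∀ P Q : Pt a b, |ht (P + Q) + ht (P - Q) - 2 * (ht P + ht Q)| ≤ C0 := hpar
  have hht : ∀ (x y : k) (h : (CV a b).toAffine.Nonsingular x y),
      ht (Affine.Point.some x y h) = logHeight₁ x := by
    intro x y h
    change logHeight (Affine.Point.xRep (W' := (CV a b).toAffine) (Affine.Point.some x y h)) = _
    rw [Affine.Point.xRep_some, ← logHeight₁_eq_logHeight]
  have hnn : ∀ P : Pt a b, 0 ≤ ht P :=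
    fun P => Pool.Agent.TH942.sht_nonneg (K := k) (a := a) (b := b) P
  have h2 : (CV a b).toAffine.Nonsingular c d := (nonsingular_iff hD').2 hcd
  refine ⟨2 * logHeight₁ c + C0, add_nonneg (mul_nonneg zero_le_two (by
    rw [← hht c d h2]; exact hnn _)) hC0, fun x y hxy hxc => ?_⟩
  have h1 : (CV a b).toAffine.Nonsingular x y := (nonsingular_iff hD').2 hxy
  obtain ⟨h3, h4⟩ := add_ne h1 h2 hxc ((y - d) / (x - c)) _ _ rfl rfl rfl
  refine ⟨_, eqn_of h3, ?_⟩
  have h5 := hpar' (Affine.Point.some x y h1) (Affine.Point.some c d h2)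
  rw [h4, hht, hht, hht, abs_le] at h5
  have h6 := hnn (Affine.Point.some x y h1 - Affine.Point.some c d h2)
  linarith [h5.2]

/-- the distance of the sum -/
theorem close_shift {f : AbsoluteValue k ℝ} (hf : IsNonarchimedean f) {a b c d : k} (ha : f a ≤ 1)
    (hb : f b ≤ 1) (hd : d ≠ 0) (hcd : d ^ 2 = c ^ 3 + a * c + b) : ∃ A₀ : ℝ, 1 ≤ A₀ ∧
      ∀ x y : k, y ^ 2 = x ^ 3 + a * x + b → A₀ < f x → x ≠ c ∧
        f (((y - d) / (x - c)) ^ 2 - x - c - c) ^ 2 * f x = f (2 * d) ^ 2 := by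
  have h2d : 0 < f (2 * d) := f.pos (mul_ne_zero two_ne_zero hd)
  set K := max (f (a + 3 * c ^ 2)) (f (b + d ^ 2 - 2 * c ^ 3)) with hK
  have hK0 : 0 ≤ K := le_max_of_le_left (f.nonneg _)
  refine ⟨max 1 (max (f c) (K ^ 2 / f (2 * d) ^ 2)), le_max_left _ _, fun x y hxy hx => ?_⟩
  have hx1 : 1 < f x := (le_max_left _ _).trans_lt hx
  have hx2 : f c < f x := ((le_max_left _ _).trans (le_max_right _ _)).trans_lt hx
  have hx3 : K ^ 2 / f (2 * d) ^ 2 < f x :=
    ((le_max_right _ _).trans (le_max_right _ _)).trans_lt hx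
  have hxc : x ≠ c := by
    rintro rfl
    exact lt_irrefl _ hx2
  refine ⟨hxc, ?_⟩
  have hxc' : x - c ≠ 0 := sub_ne_zero.2 hxc
  have fxc : f (x - c) = f x := na_sub_eq hf hx2
  have hy := abs_y hf ha hb hxy hx1
  have hfx : 0 < f x := by linarith
  have e : ((y - d) / (x - c)) ^ 2 - x - c - c =
      -(2 * d * y - ((a + 3 * c ^ 2) * x + (b + d ^ 2 - 2 * c ^ 3))) / (x - c) ^ 2 := by
    rw [eq_div_iff (pow_ne_zero 2 hxc')]
    have : (((y - d) / (x - c)) ^ 2 - x - c - c) * (x - c) ^ 2 =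
        (y - d) ^ 2 - (x + 2 * c) * (x - c) ^ 2 := by
      field_simp
      ring
    rw [this]
    linear_combination hxy
  have h1 : f ((a + 3 * c ^ 2) * x + (b + d ^ 2 - 2 * c ^ 3)) ≤ K * f x := by
    refine na_add_le hf ?_ ?_
    · rw [map_mul]
      exact mul_le_mul_of_nonneg_right (le_max_left _ _) hfx.le
    · exact (le_max_right _ _).trans (le_mul_of_one_le_right hK0 hx1.le)
  have h2 : K * f x < f (2 * d * y) := by
    have h3 : (K * f x) ^ 2 < f (2 * d * y) ^ 2 := by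
      rw [map_mul, mul_pow, mul_pow, hy]
      rw [div_lt_iff₀ (by positivity)] at hx3
      nlinarith [sq_nonneg (f x), pow_pos hfx 2]
    exact lt_of_pow_lt_pow_left₀ 2 (f.nonneg _) h3
  have h4 : f (2 * d * y - ((a + 3 * c ^ 2) * x + (b + d ^ 2 - 2 * c ^ 3))) = f (2 * d * y) :=
    na_sub_eq hf (h1.trans_lt h2)
  rw [e, map_div₀, f.map_neg, h4, map_pow, fxc, div_pow, map_mul, mul_pow, hy]
  field_simp

/-- removal of the power of a prime -/
theorem remove (p : HeightOneSpectrum (𝓞 k)) : ∃ C : ℝ, ∀ (G : 𝓞 k) (B : ℝ), G ≠ 0 → 0 < B →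
    av p (G : k) ≤ B → ∃ (G' : 𝓞 k) (s : k), G' ≠ 0 ∧ s ≠ 0 ∧ (G' : k) = s ^ 2 * (G : k) ∧
      Real.log |(Algebra.norm ℚ (G' : k) : ℝ)| ≤
        Real.log |(Algebra.norm ℚ (G : k) : ℝ)| + Real.log B + C := by
  obtain ⟨n, π, hn, hπ0, hπ⟩ := exists_gen p
  have hq1 := one_lt_qq p
  have hq0 : 0 < qq p := by linarith
  have hlq : 0 < Real.log (qq p) := Real.log_pos hq1
  refine ⟨2 * n * Real.log (qq p), fun G B hG hB hGB => ?_⟩
  rcases le_or_gt 1 B with h1 | h1
  · refine ⟨G, 1, hG, one_ne_zero, by ring, ?_⟩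
    have := Real.log_nonneg h1
    have : 0 ≤ 2 * n * Real.log (qq p) := by positivity
    linarith
  obtain ⟨m, hm1, hm2⟩ := exists_nat_pow_near (one_le_one_div hB h1.le) hq1
  have hGm : G ∈ p.asIdeal ^ m := by
    rw [← av_pow_iff]
    refine hGB.trans ?_
    rw [zpow_neg, zpow_natCast, le_inv_comm₀ hB (by positivity)]
    rwa [one_div] at hm1
  have hNn : 0 < 2 * n := by omega
  set j := m / (2 * n) with hj
  have hj1 : 2 * n * j ≤ m := Nat.mul_div_le m (2 * n)
  have hj2 : m < 2 * n * j + 2 * n := by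
    have := Nat.lt_mul_div_succ m hNn
    rw [hj]
    linarith
  have hdvd : π ^ (2 * j) ∣ G := by
    rw [← Ideal.mem_span_singleton, ← Ideal.span_singleton_pow, ← hπ, ← pow_mul]
    refine Ideal.pow_le_pow_right ?_ hGm
    calc n * (2 * j) = 2 * n * j := by ring
      _ ≤ m := hj1
  obtain ⟨G', hG'⟩ := hdvd
  have hπk : (π : k) ≠ 0 := RingOfIntegers.coe_ne_zero_iff.2 hπ0
  have hGk : (G : k) = (π : k) ^ (2 * j) * (G' : k) := by
    rw [hG']
    change algebraMap (𝓞 k) k (π ^ (2 * j) * G') = _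
    rw [map_mul, map_pow]
  have hGne : (G : k) ≠ 0 := RingOfIntegers.coe_ne_zero_iff.2 hG
  have hG'k : (G' : k) ≠ 0 := by
    intro h
    rw [h, mul_zero] at hGk
    exact hGne hGk
  have hG'0 : G' ≠ 0 := by
    rintro rfl
    exact hG'k rfl
  refine ⟨G', ((π : k) ^ j)⁻¹, hG'0, inv_ne_zero (pow_ne_zero _ hπk), ?_, ?_⟩
  · rw [hGk, inv_pow, ← pow_mul, mul_comm j 2]
    field_simp
  · have c1 : |(Algebra.norm ℚ (π : k) : ℝ)| = qq p ^ n := by
      have d1 : (Ideal.absNorm (Ideal.span {π}) : ℝ) = |(Algebra.norm ℚ (π : k) : ℝ)| := by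
        rw [Ideal.absNorm_span_singleton, ← Algebra.coe_norm_int]
        push_cast
        rw [Nat.cast_natAbs]
        push_cast
        rfl
      rw [← d1, ← hπ, map_pow]
      unfold qq
      push_cast
      rfl
    have c2 : Real.log |(Algebra.norm ℚ (G : k) : ℝ)| = 2 * j * (n * Real.log (qq p)) +
        Real.log |(Algebra.norm ℚ (G' : k) : ℝ)| := by
      rw [hGk, map_mul, map_pow]
      push_cast
      rw [abs_mul, abs_pow, c1, Real.log_mul (by positivity) (by
        rw [abs_ne_zero]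
        have : Algebra.norm ℚ (G' : k) ≠ 0 := by
          rw [Algebra.norm_ne_zero_iff]
          exact hG'k
        exact_mod_cast this), Real.log_pow, Real.log_pow]
      push_cast
      ring
    have c3 : -Real.log B ≤ (m + 1) * Real.log (qq p) := by
      have := Real.log_le_log (by positivity) hm2.le
      rw [Real.log_pow, one_div, Real.log_inv] at this
      push_cast at this
      linarith
    have c4 : (m : ℝ) + 1 ≤ 2 * n * j + 2 * n := by exact_mod_cast hj2
    have c5 : ((m : ℝ) + 1) * Real.log (qq p) ≤ (2 * n * j + 2 * n) * Real.log (qq p) :=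
      mul_le_mul_of_nonneg_right c4 hlq.le
    linarith

/-- a polynomial near a root -/
theorem near_root (p : HeightOneSpectrum (𝓞 k)) (G : (𝓞 k)[X]) (c : k) (hc : aeval c G = 0) :
    ∃ K : ℝ, 0 < K ∧ ∀ x : k, av p (x - c) ≤ 1 → av p (aeval x G) ≤ K * av p (x - c) := by
  have hc' : (G.map (algebraMap (𝓞 k) k)).IsRoot c := by
    rw [IsRoot, eval_map_algebraMap]
    exact hc
  obtain ⟨H, hH⟩ := dvd_iff_isRoot.2 hc'
  set M := max 1 (av p c) with hM
  refine ⟨∑ i ∈ Finset.range (H.natDegree + 1), av p (H.coeff i) * M ^ i + 1, ?_, fun x hx => ?_⟩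
  · have : 0 ≤ ∑ i ∈ Finset.range (H.natDegree + 1), av p (H.coeff i) * M ^ i :=
      Finset.sum_nonneg fun i _ => mul_nonneg ((av p).nonneg _) (by positivity)
    linarith
  have hxM : av p x ≤ M := by
    have e : x = (x - c) + c := by ring
    rw [e]
    exact na_add_le (av_na p) (hx.trans (le_max_left _ _)) (le_max_right _ _)
  have e1 : aeval x G = (x - c) * H.eval x := by
    rw [← eval_map_algebraMap, hH, eval_mul]
    simp
  have e2 : av p (H.eval x) ≤ ∑ i ∈ Finset.range (H.natDegree + 1), av p (H.coeff i) * M ^ i := by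
    rw [eval_eq_sum_range]
    refine ((av p).sum_le _ _).trans (Finset.sum_le_sum fun i _ => ?_)
    rw [map_mul, map_pow]
    exact mul_le_mul_of_nonneg_left (pow_le_pow_left₀ ((av p).nonneg _) hxM i) ((av p).nonneg _)
  rw [e1, map_mul, mul_comm]
  exact mul_le_mul_of_nonneg_right (by linarith) ((av p).nonneg _)

end Pool.Agent.Helper892.HE
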