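import Pool.Agent.Helper892.HE.Shift

/-!
Points of `w² = (x³ + a x + b) G(x)` above rational points of `y² = x³ + a x + b`.
-/

set_option autoImplicit false

open IsDedekindDomain NumberField WeierstrassCurve Height Module Polynomial

namespace Pool.Agent.Helper892.HE

open Pool.Agent.Helper892.ER Pool.Agent.H901R3.MS

variable {k : Type} [Field k] [NumberField k]

theorem single [DecidableEq k] (p : HeightOneSpectrum (𝓞 k)) (a b : 𝓞 k)
    (hp : 2 * (4 * a ^ 3 + 27 * b ^ 2) ∉ p.asIdeal) (G : (𝓞 k)[X]) {m : ℕ} (hm : 1 ≤ m)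
    (hG0 : G ≠ 0) (hG : G.natDegree ≤ 2 * m) {c d : k} (hcd : d ^ 2 = c ^ 3 + a * c + b)
    (hd : d ≠ 0) (hGc : aeval c G = 0) {r : ℕ} (hr : 1 ≤ r)
    (P : Fin r → Pt (a : k) (b : k)) (hP : LinearIndependent ℤ P) :
    ∃ C : ℝ, ∀ T : ℝ, ∃ x y : k, y ^ 2 = x ^ 3 + a * x + b ∧ y ≠ 0 ∧ T < logHeight₁ x ∧
      ∃ (G' : 𝓞 k) (s : k), G' ≠ 0 ∧ s ≠ 0 ∧ (G' : k) = s ^ 2 * aeval x G ∧
      Real.log |(Algebra.norm ℚ (G' : k) : ℝ)| / 2 + r / 4 * Real.log (logHeight₁ x) ≤
        m * logHeight₁ x + C := by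
  classical
  have hDk : 4 * (a : k) ^ 3 + 27 * (b : k) ^ 2 ≠ 0 := by
    intro h0
    apply hp
    have : (4 * a ^ 3 + 27 * b ^ 2 : 𝓞 k) = 0 := by
      apply RingOfIntegers.ext
      change algebraMap (𝓞 k) k (4 * a ^ 3 + 27 * b ^ 2) = algebraMap (𝓞 k) k 0
      rw [map_add, map_mul, map_mul, map_pow, map_pow, map_ofNat, map_ofNat, map_zero]
      exact h0
    rw [this, mul_zero]
    exact p.asIdeal.zero_mem
  have fa := av_int p a
  have fb := av_int p b
  have hq1 := one_lt_qq p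
  have hq0 : 0 < qq p := by linarith
  have hrr : (0 : ℝ) < r := by exact_mod_cast hr
  obtain ⟨C1, hC1, h1⟩ := exists_close_point p a b hp hr P hP
  obtain ⟨C2, hC2, h2⟩ := ht_shift hDk hcd
  obtain ⟨A0, hA0, h3⟩ := close_shift (av_na p) fa fb hd hcd
  obtain ⟨C3, h4⟩ := remove p
  obtain ⟨K, hK, h5⟩ := near_root p G c hGc
  obtain ⟨C4, h6⟩ := exists_G a b G 0 (M := 2 * m) (by omega) hG (by simp)
  have h2d : 0 < av p (2 * d) := (av p).pos (mul_ne_zero two_ne_zero hd)
  refine ⟨r / 4 * Real.log (2 * C1 + C2) + (C4 + Real.log K + C3 + Real.log (av p (2 * d))) / 2,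
    fun T => ?_⟩
  -- exceptional abscissas
  set S : Set k := {x | logHeight₁ x ≤ max T 0} ∪ ((G.map (algebraMap (𝓞 k) k)).roots.toFinset : Set k)
    ∪ (((cub a b).map (algebraMap (𝓞 k) k)).roots.toFinset : Set k) with hS
  have hSfin : S.Finite := ((NumberField.finite_setOfPred_logHeight₁_le k (max T 0)).union
    (Finset.finite_toSet _)).union (Finset.finite_toSet _)
  obtain ⟨M, hM⟩ := (hSfin.image (fun s => (av p (s - c) ^ 2)⁻¹)).bddAbove
  obtain ⟨J, hJ⟩ := pow_unbounded_of_one_lt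
    (max (max A0 (av p (2 * d) ^ 2)) (M * av p (2 * d) ^ 2)) (by nlinarith : 1 < qq p ^ 2)
  rw [← pow_mul] at hJ
  obtain ⟨x, y, hxy, hx, hxh⟩ := h1 J
  have hxA : A0 < av p x := (((le_max_left _ _).trans (le_max_left _ _)).trans_lt hJ).trans_le hx
  have hxd : av p (2 * d) ^ 2 < av p x :=
    (((le_max_right _ _).trans (le_max_left _ _)).trans_lt hJ).trans_le hx
  have hxM : M * av p (2 * d) ^ 2 < av p x := ((le_max_right _ _).trans_lt hJ).trans_le hx
  obtain ⟨hxc, hclose⟩ := h3 x y hxy hxA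
  obtain ⟨Y, hY, hXh⟩ := h2 x y hxy hxc
  set X := ((y - d) / (x - c)) ^ 2 - x - c with hX
  have hfx : 0 < av p x := by linarith
  have hXc0 : av p (X - c) ≠ 0 := by
    intro h0
    rw [h0, zero_pow two_ne_zero, zero_mul] at hclose
    have : 0 < av p (2 * d) ^ 2 := by positivity
    linarith
  have hXcpos : 0 < av p (X - c) := lt_of_le_of_ne ((av p).nonneg _) (Ne.symm hXc0)
  have hXS : X ∉ S := by
    intro h
    have h7 : (av p (X - c) ^ 2)⁻¹ ≤ M := hM (Set.mem_image_of_mem _ h)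
    have h8 : av p x = (av p (X - c) ^ 2)⁻¹ * av p (2 * d) ^ 2 := by
      rw [← hclose]
      field_simp
    have h9 : (av p (X - c) ^ 2)⁻¹ * av p (2 * d) ^ 2 ≤ M * av p (2 * d) ^ 2 :=
      mul_le_mul_of_nonneg_right h7 (by positivity)
    linarith
  have hXc1 : av p (X - c) ≤ 1 := by
    by_contra hcon
    push Not at hcon
    have h7 : 1 < av p (X - c) ^ 2 := one_lt_pow₀ hcon two_ne_zero
    nlinarith
  rw [hS, Set.mem_union, Set.mem_union, not_or, not_or] at hXS
  obtain ⟨⟨hXT, hXR⟩, hXR2⟩ := hXS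
  have hXT' : max T 0 < logHeight₁ X := by
    rw [Set.mem_ofPred_eq] at hXT
    exact not_le.1 hXT
  have hXT1 : T < logHeight₁ X := (le_max_left _ _).trans_lt hXT'
  have hXT2 : 0 < logHeight₁ X := (le_max_right _ _).trans_lt hXT'
  have hGk0 : G.map (algebraMap (𝓞 k) k) ≠ 0 :=
    (Polynomial.map_ne_zero_iff RingOfIntegers.coe_injective).2 hG0
  have hGX : aeval X G ≠ 0 := by
    intro h0
    apply hXR
    rw [Finset.mem_coe, Multiset.mem_toFinset, mem_roots hGk0, IsRoot, eval_map_algebraMap]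
    exact h0
  have hYne : Y ≠ 0 := by
    rintro rfl
    apply hXR2
    have hc0 : (cub a b).map (algebraMap (𝓞 k) k) ≠ 0 := by
      refine (Polynomial.map_ne_zero_iff RingOfIntegers.coe_injective).2 ?_
      intro h0
      have : (cub a b).coeff 3 = 1 := by
        simp [cub]
      rw [h0, coeff_zero] at this
      exact zero_ne_one this
    rw [Finset.mem_coe, Multiset.mem_toFinset, mem_roots hc0, IsRoot, eval_map_algebraMap,
      cub_aeval, ← hY]
    ring
  obtain ⟨G1, s1, t1, ht1, hst, hG1, hG1n⟩ := h6 X Y hY (by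
    rw [map_zero, zero_mul, add_zero]
    exact hGX)
  rw [map_zero, zero_mul, add_zero] at hG1
  have ht1k : (t1 : k) ≠ 0 := RingOfIntegers.coe_ne_zero_iff.2 ht1
  have hG1k : (G1 : k) ≠ 0 := by
    rw [hG1]
    exact mul_ne_zero (pow_ne_zero _ ht1k) hGX
  have hG10 : G1 ≠ 0 := by
    rintro rfl
    exact hG1k rfl
  have hB : av p (G1 : k) ≤ K * av p (X - c) := by
    rw [hG1, map_mul, map_pow]
    refine (mul_le_of_le_one_left ((av p).nonneg _) (pow_le_one₀ ((av p).nonneg _)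
      (av_int p t1))).trans (h5 X hXc1)
  obtain ⟨G', s, hG'0, hs0, hG', hG'n⟩ := h4 G1 (K * av p (X - c)) hG10 (by positivity) hB
  refine ⟨X, Y, hY, hYne, hXT1, G', s * (t1 : k) ^ m, hG'0,
    mul_ne_zero hs0 (pow_ne_zero _ ht1k), ?_, ?_⟩
  · rw [hG', hG1]
    ring
  · have e1 : Real.log (K * av p (X - c)) = Real.log K + Real.log (av p (X - c)) :=
      Real.log_mul hK.ne' hXc0
    have e2 : 2 * Real.log (av p (X - c)) + Real.log (av p x) = 2 * Real.log (av p (2 * d)) := by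
      have := congrArg Real.log hclose
      rw [Real.log_mul (pow_ne_zero _ hXc0) hfx.ne', Real.log_pow, Real.log_pow] at this
      push_cast at this
      exact this
    have e3 : 2 * (J : ℝ) * Real.log (qq p) ≤ Real.log (av p x) := by
      have := Real.log_le_log (by positivity) hx
      rw [Real.log_pow] at this
      push_cast at this
      exact this
    have hqJ : 1 ≤ qq p ^ ((2 * J / r : ℝ)) := Real.one_le_rpow hq1.le (by positivity)
    have e4 : logHeight₁ X ≤ (2 * C1 + C2) * qq p ^ ((2 * J / r : ℝ)) := by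
      nlinarith
    have e5 := Real.log_le_log hXT2 e4
    rw [Real.log_mul (by positivity) (by positivity), Real.log_rpow hq0] at e5
    have e6 : (r / 4 : ℝ) * Real.log (logHeight₁ X) ≤
        (r / 4 : ℝ) * (Real.log (2 * C1 + C2) + 2 * J / r * Real.log (qq p)) :=
      mul_le_mul_of_nonneg_left e5 (by positivity)
    have e7 : (r / 4 : ℝ) * (Real.log (2 * C1 + C2) + 2 * J / r * Real.log (qq p)) =
        (r / 4 : ℝ) * Real.log (2 * C1 + C2) + J / 2 * Real.log (qq p) := by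
      field_simp
      ring
    rw [e1] at hG'n
    push_cast at hG1n
    linarith

end Pool.Agent.Helper892.HE
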